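import Pool.Agent.H6.G9.Targets
import Pool.Agent.H6.GS2.Bas
import Pool.Agent.H48.GSW.Tls
import Pool.Agent.H20.ENM.QMS

/-!
# Theorem (H), MP_c59857_nt, row ONU: a window and its pieces
-/

set_option autoImplicit false

open Finset Pool.Agent.H6.N4D Pool.Agent.H93 Pool.Agent.H93.GS Pool.Agent.H6.GS2 Pool.Agent.H6.G9
open Pool.Agent.H48.GSW

namespace Pool.Agent.H70.G9

lemma le_two_pow' (P : ℕ) : P ≤ 2 ^ P := Nat.lt_two_pow_self.le

lemma nm_le_th (hB : T_BNM) {th : ℝ} {lam : ℕ → ℝ} {N n : ℕ} {g : Ex} (hth : 0 < th)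
    (hl : ∀ m, |lam m| ≤ 1) (hN1 : 1 ≤ N) (hg : Opt th lam 1 N n g) : g.nm ≤ 1 / th := by
  have h1 := (hB th lam 1 N n g hth hl le_rfl hN1 hg).1
  have h2 : (((1 : ℕ) : ℝ)) / (N : ℝ) ≤ 1 := by
    rw [div_le_one (by exact_mod_cast hN1)]
    exact_mod_cast hN1
  rw [le_div_iff₀ hth]
  linarith

lemma d2_comm' (q N n : ℕ) (g h : Ex) : d2 q N n g h = d2 q N n h g := by
  unfold d2
  apply ar_congr
  intro m _ _
  rw [norm_sub_rev]

/-- one piece -/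
theorem piece (hX : T_UXC) (h2 : T_U2) (hU : T_UBB) (hS : T_SEP) (hO : T_OPD)
    (hB : T_BNM) (hA : T_PCA) (hD : T_DQG) (th : ℝ) (hth : 0 < th) (hth1 : th ≤ 1) :
    ∃ (κ A C : ℝ) (p₀ J m₁ : ℕ), 0 < κ ∧ 0 < A ∧ 0 < C ∧ 4 * p₀ ≤ m₁ ∧
      ∀ (η : ℝ) (p m n j : ℕ) (lam : ℕ → ℝ) (h : Ex), 0 < η → η ≤ 1 → m₁ ≤ m →
        (∀ m, |lam m| ≤ 1) → Opt th lam 1 (2 ^ p * 2 ^ m) n h → Dst 1 h →
        ∑ q ∈ EB.QQ m, 1 / (q : ℝ) * (En th lam q (2 ^ m) (n + j * 2 ^ m) -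
            GS.J th lam q (2 ^ m) (n + j * 2 ^ m) h) ≤
          (1 + η) * (∑ q ∈ EB.QQ m, 1 / (q : ℝ)) *
            (En th lam 1 (2 ^ m) (n + j * 2 ^ m) - GS.J th lam 1 (2 ^ m) (n + j * 2 ^ m) h) +
          2 / η * UB lam J A m (n + j * 2 ^ m) +
          C / η * ((EB.ind (κ < gap th lam (2 ^ p₀) (2 ^ (m - p₀)) (n + j * 2 ^ m)) +
            ∑ q ∈ EB.QQ m, 1 / (q : ℝ) *
              EB.ind (κ < gapq th lam q (2 ^ p₀) (2 ^ (m - p₀)) (n + j * 2 ^ m))) +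
            EB.ind (κ < gap th lam (2 ^ p₀) (2 ^ (p + m - p₀)) n) + (1 / 2) ^ (m / 1000)) := by
  obtain ⟨κX, AX, CX, pX, JX, mX, hκX, hAX, hCX, hpX, hx⟩ := hX th hth hth1
  obtain ⟨PS, CS, κS, hPS, hCS, hκS, hκS1, hs⟩ := hS th 1 hth hth1 le_rfl
  obtain ⟨A2, C2, J2, m2, hA2, hC2, hu⟩ := h2 ⌊5 / th ^ 2⌋₊ (1 / th) (by positivity)
  obtain ⟨mD, hdq⟩ := hD
  obtain ⟨mU, CU, hCU, hub⟩ := hU (max JX J2) (max AX A2) (le_max_of_le_left hAX.le)
  obtain ⟨mQ, hqm⟩ := Pool.Agent.H20.ENM.pf_QMS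
  refine ⟨min κX (κS ^ 2), max AX A2, 3 * CX + C2 + 1 / th ^ 2 + (6 + 24 / th) + 1, max pX PS,
    max JX J2, 4 * max pX PS + 400 + mX + m2 + mD + mU + mQ + CS, by positivity,
    lt_max_of_lt_left hAX, by positivity, by omega, ?_⟩
  intro η p m n j lam h hη hη1 hm hl hh hhd
  obtain ⟨κ, hκ⟩ : ∃ κ, κ = min κX (κS ^ 2) := ⟨_, rfl⟩
  obtain ⟨p₀, hp₀⟩ : ∃ p₀, p₀ = max pX PS := ⟨_, rfl⟩
  rw [← hκ, ← hp₀]
  rw [← hp₀] at hm
  have hκ1 : κ ≤ κX := hκ ▸ min_le_left _ _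
  have hκ2 : κ ≤ κS ^ 2 := hκ ▸ min_le_right _ _
  have hpp1 : pX ≤ p₀ := hp₀ ▸ le_max_left _ _
  have hpp2 : PS ≤ p₀ := hp₀ ▸ le_max_right _ _
  have hpm : p₀ ≤ m := by omega
  obtain ⟨hW1, hW2⟩ := hqm m (by omega)
  obtain ⟨n', hn'⟩ : ∃ n', n' = n + j * 2 ^ m := ⟨_, rfl⟩
  rw [← hn']
  obtain ⟨hUB0, -, -, -, hUBm⟩ := hub lam m n' (by omega) hl
  have hUX := hUBm JX AX (le_max_left _ _) hAX.le (le_max_left _ _)
  have hU2' := hUBm J2 A2 (le_max_right _ _) hA2.le (le_max_right _ _)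
  have hN1 : 1 ≤ 2 ^ m := Nat.one_le_two_pow
  have hNW : 1 ≤ 2 ^ p * 2 ^ m := Nat.mul_pos (by positivity) (by positivity)
  obtain ⟨g, hg, hgd⟩ := hO th lam 1 (2 ^ m) n' hth hl le_rfl hN1
  have hgn := nm_le_th hB hth hl hN1 hg
  have hhn := nm_le_th hB hth hl hNW hh
  have hdqh := hdq m n' h h (by omega)
  have hu1 : 1 ≤ 1 / η := by rw [le_div_iff₀ hη]; linarith
  have hη0 : 0 ≤ 1 / η := by positivity
  -- the pieces of the formula
  obtain ⟨S, hSd⟩ : ∃ S, S = ∑ q ∈ EB.QQ m, 1 / (q : ℝ) := ⟨_, rfl⟩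
  obtain ⟨U, hUd⟩ : ∃ U, U = UB lam (max JX J2) (max AX A2) m n' := ⟨_, rfl⟩
  obtain ⟨I1, hI1⟩ : ∃ I1, I1 = EB.ind (κ < gap th lam (2 ^ p₀) (2 ^ (m - p₀)) n') := ⟨_, rfl⟩
  obtain ⟨I2, hI2⟩ : ∃ I2, I2 = ∑ q ∈ EB.QQ m, 1 / (q : ℝ) *
    EB.ind (κ < gapq th lam q (2 ^ p₀) (2 ^ (m - p₀)) n') := ⟨_, rfl⟩
  obtain ⟨I3, hI3⟩ : ∃ I3, I3 = EB.ind (κ < gap th lam (2 ^ p₀) (2 ^ (p + m - p₀)) n) :=
    ⟨_, rfl⟩
  obtain ⟨e, he⟩ : ∃ e, e = ((1 : ℝ) / 2) ^ (m / 1000) := ⟨_, rfl⟩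
  obtain ⟨E, hE⟩ : ∃ E, E = En th lam 1 (2 ^ m) n' - GS.J th lam 1 (2 ^ m) n' h := ⟨_, rfl⟩
  rw [← hSd] at hW1 hW2
  rw [← hUd] at hUB0 hUX hU2'
  have hI10 : 0 ≤ I1 := hI1 ▸ ind_nonneg _
  have hI20 : 0 ≤ I2 := hI2 ▸ sum_nonneg fun q _ => mul_nonneg (by positivity) (ind_nonneg _)
  have hI30 : 0 ≤ I3 := hI3 ▸ ind_nonneg _
  have he0 : 0 ≤ e := he ▸ by positivity
  have hE0 : 0 ≤ E := by
    rw [hE]; linarith [J_le_En th lam 1 (2 ^ m) n' hth.le hl le_rfl hN1 h]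
  -- the algebra of one prime
  have key : ∀ q ∈ EB.QQ m, 1 / (q : ℝ) * (En th lam q (2 ^ m) n' -
      GS.J th lam q (2 ^ m) n' h) ≤ 1 / (q : ℝ) * E +
      1 / (q : ℝ) * (En th lam q (2 ^ m) n' - En th lam 1 (2 ^ m) n' -
        lin lam q (2 ^ m) n' h) +
      1 / (q : ℝ) * ‖ac 1 (2 ^ m) n' (fun x => (EB.D q x : ℂ) * h.f x *
        (starRingEnd ℂ) (h.f x))‖ := by
    intro q hq
    have h3 := J_sub th lam q (2 ^ m) n' h
    have h4 := (abs_le.1 (Pool.Agent.H48.GSW.nrm_le q (2 ^ m) n' h)).2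
    have h6 : (0 : ℝ) ≤ 1 / (q : ℝ) := by positivity
    rw [← mul_add, ← mul_add]
    apply mul_le_mul_of_nonneg_left _ h6
    rw [hE]
    linarith
  have hkey := sum_le_sum key
  rw [sum_add_distrib, sum_add_distrib, ← sum_mul, ← hSd] at hkey
  have hnm : h.nm * h.nm * ((1 : ℝ) / 2) ^ (m / 1000) ≤ 1 / th ^ 2 * e := by
    rw [← he]
    apply mul_le_mul_of_nonneg_right _ he0
    calc h.nm * h.nm ≤ 1 / th * (1 / th) :=
          mul_le_mul hhn hhn (nm_nonneg h) (by positivity)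
      _ = 1 / th ^ 2 := by rw [one_div_mul_one_div]; ring
  -- the main part
  have main : ∑ q ∈ EB.QQ m, 1 / (q : ℝ) * (En th lam q (2 ^ m) n' - En th lam 1 (2 ^ m) n' -
      lin lam q (2 ^ m) n' h) ≤ η * S * E + (1 + 1 / η) * U + 3 * CX * I2 + (CX + C2) * e +
      (6 + 24 / th) * (I1 + I3) := by
    have hE0' : 0 ≤ η * S * E := by
      apply mul_nonneg (mul_nonneg hη.le (by linarith)) hE0
    have hU0' : 0 ≤ (1 + 1 / η) * U := by positivity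
    have hI0' : 0 ≤ 3 * CX * I2 := by positivity
    have he0' : 0 ≤ (CX + C2) * e := by positivity
    -- the trivial bound
    have triv : ∑ q ∈ EB.QQ m, 1 / (q : ℝ) * (En th lam q (2 ^ m) n' -
        En th lam 1 (2 ^ m) n' - lin lam q (2 ^ m) n' h) ≤ 6 + 24 / th := by
      have e1 : ∀ q ∈ EB.QQ m, 1 / (q : ℝ) * (En th lam q (2 ^ m) n' -
          En th lam 1 (2 ^ m) n' - lin lam q (2 ^ m) n' h) ≤ 1 / (q : ℝ) * (2 + 8 / th) := by
        intro q hq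
        obtain ⟨-, hq1, -, -, hqN, -⟩ := ong_q hq
        have h4 := lin_le hl (n := n') hq1 hqN h
        have h5 := En_le th lam q (2 ^ m) n' hth.le hl hq1 hN1
        have h6 := En_nonneg th lam 1 (2 ^ m) n' hth.le hl le_rfl hN1
        have h7 : (q : ℝ) / ((2 ^ m : ℕ) : ℝ) ≤ 1 := by
          rw [div_le_one (by positivity)]
          exact_mod_cast hqN
        have h8 : 8 * h.nm ≤ 8 / th := by
          calc 8 * h.nm ≤ 8 * (1 / th) := by linarith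
            _ = 8 / th := by ring
        have h9 : (0 : ℝ) ≤ 1 / (q : ℝ) := by positivity
        apply mul_le_mul_of_nonneg_left _ h9
        have h10 := neg_abs_le (lin lam q (2 ^ m) n' h)
        linarith
      have e2 := sum_le_sum e1
      rw [← sum_mul, ← hSd] at e2
      have e3 : S * (2 + 8 / th) ≤ 3 * (2 + 8 / th) := by
        apply mul_le_mul_of_nonneg_right hW2
        positivity
      have e4 : 3 * (2 + 8 / th) = 6 + 24 / th := by ring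
      linarith
    by_cases c1 : κ < gap th lam (2 ^ p₀) (2 ^ (m - p₀)) n'
    · have e1 : I1 = 1 := by rw [hI1]; exact ind_true c1
      have e2 : (6 + 24 / th) * (1 : ℝ) ≤ (6 + 24 / th) * (I1 + I3) := by
        apply mul_le_mul_of_nonneg_left _ (by positivity)
        linarith
      linarith
    by_cases c3 : κ < gap th lam (2 ^ p₀) (2 ^ (p + m - p₀)) n
    · have e1 : I3 = 1 := by rw [hI3]; exact ind_true c3
      have e2 : (6 + 24 / th) * (1 : ℝ) ≤ (6 + 24 / th) * (I1 + I3) := by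
        apply mul_le_mul_of_nonneg_left _ (by positivity)
        linarith
      linarith
    push Not at c1 c3
    -- the sizes of the optimal sums
    have hCSm : CS * 1 ≤ 2 ^ (m - p₀) := by
      rw [mul_one]
      exact (le_two_pow' CS).trans (Nat.pow_le_pow_right (by norm_num) (by omega))
    have hCSw : CS * 1 ≤ 2 ^ (p + m - p₀) := by
      rw [mul_one]
      exact (le_two_pow' CS).trans (Nat.pow_le_pow_right (by norm_num) (by omega))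
    have hPSp : PS ≤ 2 ^ p₀ := (le_two_pow' PS).trans (Nat.pow_le_pow_right (by norm_num) hpp2)
    have em : 2 ^ p₀ * 2 ^ (m - p₀) = 2 ^ m := by rw [← pow_add]; congr 1; omega
    have ew : 2 ^ p₀ * 2 ^ (p + m - p₀) = 2 ^ p * 2 ^ m := by
      rw [← pow_add, ← pow_add]; congr 1; omega
    have hgk : g.k ≤ ⌊5 / th ^ 2⌋₊ := by
      apply Nat.le_floor
      exact (hs lam 1 (2 ^ p₀) (2 ^ (m - p₀)) n' g hl le_rfl hCSm hPSp (em ▸ hg) hgd
        (c1.trans hκ2)).2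
    have hhk : h.k ≤ ⌊5 / th ^ 2⌋₊ := by
      apply Nat.le_floor
      exact (hs lam 1 (2 ^ p₀) (2 ^ (p + m - p₀)) n h hl le_rfl hCSw hPSp (ew ▸ hh) hhd
        (c3.trans hκ2)).2
    -- UXC
    have x1 := hx lam m n' g (by omega) hl hg hgd
      ((gap_mono hA th lam m n' hth.le hl hpp1 hpm).trans (c1.trans hκ1))
    have x2 : ∑ q ∈ EB.QQ m, 1 / (q : ℝ) *
        EB.ind (κX < gapq th lam q (2 ^ pX) (2 ^ (m - pX)) n') ≤ I2 := by
      rw [hI2]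
      apply sum_le_sum
      intro q hq
      obtain ⟨-, hq1, -, -, -, -⟩ := ong_q hq
      apply mul_le_mul_of_nonneg_left _ (by positivity : (0 : ℝ) ≤ 1 / (q : ℝ))
      exact ind_mono fun hh => (hκ1.trans_lt hh).trans_le
        (gapq_mono hA th lam q m n' hth.le hl hq1 hpp1 hpm)
    have x3 : CX * (∑ q ∈ EB.QQ m, 1 / (q : ℝ) *
        EB.ind (κX < gapq th lam q (2 ^ pX) (2 ^ (m - pX)) n') + (1 / 2) ^ (m / 1000)) ≤
        CX * (I2 + e) := by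
      rw [← he]
      apply mul_le_mul_of_nonneg_left _ hCX.le
      linarith
    -- U2
    have y1 := hu η lam m n' g h hη hη1 (by omega) hl hgk hhk hgn hhn
    have y2 : d2 1 (2 ^ m) n' g h ≤ E := by
      have z1 := J_exp hg h
      have z2 := slk_nonneg hg h
      rw [d2_comm', hE]
      linarith
    rw [← hSd, ← he] at y1
    have y3 : η * S * d2 1 (2 ^ m) n' g h ≤ η * S * E :=
      mul_le_mul_of_nonneg_left y2 (mul_nonneg hη.le (by linarith))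
    have y4 : 1 / η * UB lam J2 A2 m n' ≤ 1 / η * U := mul_le_mul_of_nonneg_left hU2' hη0
    have y5 : ∑ q ∈ EB.QQ m, 1 / (q : ℝ) * (En th lam q (2 ^ m) n' -
        En th lam 1 (2 ^ m) n' - lin lam q (2 ^ m) n' h) ≤
        ∑ q ∈ EB.QQ m, 1 / (q : ℝ) * (En th lam q (2 ^ m) n' -
          En th lam 1 (2 ^ m) n' - lin lam q (2 ^ m) n' g) +
        ∑ q ∈ EB.QQ m, 1 / (q : ℝ) *
          |lin lam q (2 ^ m) n' g - lin lam q (2 ^ m) n' h| := by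
      rw [← sum_add_distrib]
      apply sum_le_sum
      intro q _
      rw [← mul_add]
      apply mul_le_mul_of_nonneg_left _ (by positivity : (0 : ℝ) ≤ 1 / (q : ℝ))
      have := le_abs_self (lin lam q (2 ^ m) n' g - lin lam q (2 ^ m) n' h)
      linarith
    have y6 : 0 ≤ (6 + 24 / th) * (I1 + I3) := by positivity
    have y7 : CX * I2 ≤ 3 * CX * I2 := by nlinarith [mul_nonneg hCX.le hI20]
    linarith
  -- the constants
  have k1 : (1 + 1 / η) * U ≤ 2 / η * U := by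
    apply mul_le_mul_of_nonneg_right _ hUB0
    have : 2 / η = 1 / η + 1 / η := by ring
    linarith
  obtain ⟨K, hK⟩ : ∃ K, K = 3 * CX + C2 + 1 / th ^ 2 + (6 + 24 / th) + 1 := ⟨_, rfl⟩
  have hth2 : 0 ≤ 1 / th ^ 2 := by positivity
  have hth3 : 0 ≤ 24 / th := by positivity
  have k2 : 3 * CX * I2 + (CX + C2) * e + (6 + 24 / th) * (I1 + I3) + 1 / th ^ 2 * e ≤
      K * (I1 + I2 + I3 + e) := by
    rw [hK]
    have a1 : 0 ≤ (C2 + 1 / th ^ 2 + (6 + 24 / th) + 1) * I2 := by positivity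
    have a2 : 0 ≤ (2 * CX + (6 + 24 / th) + 1) * e := by positivity
    have a3 : 0 ≤ (3 * CX + C2 + 1 / th ^ 2 + 1) * (I1 + I3) := by positivity
    nlinarith
  have k3 : K * (I1 + I2 + I3 + e) ≤ K / η * (I1 + I2 + I3 + e) := by
    have a1 : 0 ≤ K * (I1 + I2 + I3 + e) := by
      rw [hK]; positivity
    have a2 : K / η * (I1 + I2 + I3 + e) = (1 / η) * (K * (I1 + I2 + I3 + e)) := by ring
    rw [a2]
    exact le_mul_of_one_le_left a1 hu1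
  rw [← hI1, ← hI2, ← hI3, ← he, ← hSd, ← hUd, ← hE, ← hK]
  have k4 : (1 + η) * S * E = S * E + η * S * E := by ring
  linarith

/-- ONU. -/
theorem pf_ONU (hX : T_UXC) (h2 : T_U2) (hU : T_UBB) (hS : T_SEP) (hO : T_OPD)
    (hB : T_BNM) (hA : T_PCA) (_hP : T_PCS) (hD : T_DQG) : T_ONU := by
  intro th hth hth1
  obtain ⟨κ, A, C, p₀, J, m₁, hκ, hA0, hC, hp, hpc⟩ := piece hX h2 hU hS hO hB hA hD th hth hth1
  refine ⟨κ, A, C, p₀, J, m₁, hκ, hA0, hC, hp, ?_⟩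
  intro η p m n lam hη hη1 hm hl
  have hL1 : 1 ≤ 2 ^ m := Nat.one_le_two_pow
  have hP1 : 1 ≤ 2 ^ p := Nat.one_le_two_pow
  have hN1 : 1 ≤ 2 ^ p * 2 ^ m := Nat.mul_pos hP1 hL1
  obtain ⟨P, hPd⟩ : ∃ P, P = 2 ^ p := ⟨_, rfl⟩
  obtain ⟨g, hg, hgd⟩ := hO th lam 1 (2 ^ p * 2 ^ m) n hth hl le_rfl hN1
  have h4 : ∀ j ∈ range (2 ^ p), _ := fun j _ => hpc η p m n j lam g hη hη1 hm hl hg hgd
  rw [← hPd] at h4 hP1 hN1 hg ⊢
  have hPR : (0 : ℝ) < P := by exact_mod_cast hP1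
  -- the defects for `q`
  have h1 : ∀ q ∈ EB.QQ m, 1 / (q : ℝ) * gapq th lam q P (2 ^ m) n ≤
      (∑ j ∈ range P, 1 / (q : ℝ) * (En th lam q (2 ^ m) (n + j * 2 ^ m) -
        GS.J th lam q (2 ^ m) (n + j * 2 ^ m) g)) / P := by
    intro q hq
    obtain ⟨-, hq1, -, -, -, -⟩ := ong_q hq
    have h2 := J_le_En th lam q (P * 2 ^ m) n hth.le hl hq1 hN1 g
    rw [(hA q P (2 ^ m) n hP1 hL1).2.2 th lam g] at h2
    rw [← mul_sum, sum_sub_distrib, mul_div_assoc, sub_div]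
    have h3 : (0 : ℝ) ≤ 1 / (q : ℝ) := by positivity
    apply mul_le_mul_of_nonneg_left _ h3
    unfold gapq
    linarith
  have h2' : gap th lam P (2 ^ m) n = (∑ j ∈ range P, (En th lam 1 (2 ^ m) (n + j * 2 ^ m) -
      GS.J th lam 1 (2 ^ m) (n + j * 2 ^ m) g)) / P := by
    unfold gap
    rw [← hg.mx, (hA 1 P (2 ^ m) n hP1 hL1).2.2 th lam g, sum_sub_distrib, sub_div]
  have h3 : ∑ q ∈ EB.QQ m, 1 / (q : ℝ) * gapq th lam q P (2 ^ m) n ≤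
      (∑ j ∈ range P, ∑ q ∈ EB.QQ m, 1 / (q : ℝ) * (En th lam q (2 ^ m) (n + j * 2 ^ m) -
        GS.J th lam q (2 ^ m) (n + j * 2 ^ m) g)) / P := by
    refine (sum_le_sum h1).trans (le_of_eq ?_)
    rw [← sum_div, sum_comm]
  have h5 := sum_le_sum h4
  rw [sum_add_distrib, sum_add_distrib, ← mul_sum, ← mul_sum, ← mul_sum, sum_add_distrib,
    sum_add_distrib, sum_const, sum_const, card_range, nsmul_eq_mul, nsmul_eq_mul] at h5
  rw [h2']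
  refine h3.trans ((div_le_div_of_nonneg_right h5 hPR.le).trans (le_of_eq ?_))
  field_simp

end Pool.Agent.H70.G9
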