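import Pool.Agent.H6.G9.Targets
import Pool.Agent.H70.GH.U2

/-!
# Theorem (H), MP_c59857_nt: differences of sums of exponentials
-/

set_option autoImplicit false

open Finset Pool.Agent.H6.N4D Pool.Agent.H93 Pool.Agent.H93.GS Pool.Agent.H6.GS2 Pool.Agent.H6.G9

namespace Pool.Agent.H70.G9

lemma sb_f (h g : Ex) (x : ℕ) : (sb h g).f x = h.f x - g.f x := by
  unfold Ex.f sb
  simp only
  rw [sum_range_add, sub_eq_add_neg]
  congr 1
  · exact sum_congr rfl fun i hi => by rw [if_pos (mem_range.1 hi), if_pos (mem_range.1 hi)]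
  · rw [← sum_neg_distrib]
    apply sum_congr rfl
    intro i _
    rw [if_neg (by omega), if_neg (by omega), Nat.add_sub_cancel_left]
    ring

lemma sb_nm (h g : Ex) : (sb h g).nm = h.nm + g.nm := by
  unfold Ex.nm sb
  simp only
  rw [sum_range_add]
  congr 1
  · exact sum_congr rfl fun i hi => by rw [if_pos (mem_range.1 hi)]
  · apply sum_congr rfl
    intro i _
    rw [if_neg (by omega), Nat.add_sub_cancel_left, norm_neg]

lemma tx_sb (lam : ℕ → ℝ) (q N n : ℕ) (h g : Ex) : tx lam q N n (sb h g) =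
    ac 1 N n (fun m => (EB.D q m : ℂ) * lam m * (starRingEnd ℂ) (h.f m - g.f m)) := by
  unfold tx
  apply ac_congr
  intro m _ _
  rw [sb_f]

lemma lin_sb (lam : ℕ → ℝ) (q N n : ℕ) (h g : Ex) :
    lin lam q N n h - lin lam q N n g = 2 * (tx lam q N n (sb h g)).re := by
  rw [tx_sb]
  exact Pool.Agent.H67.GSC.ldg_lin lam q N n h g

lemma d2_sb (N n : ℕ) (h g : Ex) :
    ar 1 N n (fun x => ‖(sb h g).f x‖ ^ 2) = d2 1 N n h g := by
  unfold d2
  apply ar_congr
  intro m _ _
  rw [sb_f]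

lemma f_congr {h h' : Ex} (hk : h'.k = h.k) (hc : ∀ i < h.k, h'.c i = h.c i)
    (ha : ∀ i < h.k, h'.a i = h.a i) (m : ℕ) : h'.f m = h.f m := by
  unfold Ex.f
  rw [hk]
  apply sum_congr rfl
  intro i hi
  rw [hc i (mem_range.1 hi), ha i (mem_range.1 hi)]

/-- UX1. -/
theorem pf_UX1 : T_UX1 := by
  intro th lam q N n g h h' hth hq hN hg hh hk hc ha
  choose! s hs using ha
  have h1 := Pool.Agent.H95.GSC.pf_LFT th lam q N n g h s hq hg hh
  have h6 : (⟨h.k, h.c, fun j => h.a j + s j / q⟩ : Ex) = Pool.Agent.H70.GH.mv q h s := rfl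
  rw [h6] at h1
  have hf : ∀ m, h'.f m = (Pool.Agent.H70.GH.mv q h s).f m := by
    intro m
    apply f_congr (h := Pool.Agent.H70.GH.mv q h s) hk
    · intro i hi
      exact hc i hi
    · intro i hi
      exact hs i hi
  have h4 := slk_nonneg hg (Pool.Agent.H70.GH.mv q h s)
  have e1 : lin lam q N n (Pool.Agent.H70.GH.mv q h s) = lin lam q N n h' := by
    unfold lin
    simp only [hf]
  have e2 : nrm q N n (Pool.Agent.H70.GH.mv q h s) = nrm q N n h' := by
    unfold nrm
    simp only [hf]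
  have e3 : d2 1 N n (Pool.Agent.H70.GH.mv q h s) g =
      ar 1 N n (fun x => ‖(sb h' g).f x‖ ^ 2) := by
    rw [d2_sb]
    unfold d2
    simp only [hf]
  have e4 := lin_sb lam q N n h' g
  rw [e1, e2, e3] at h1
  linarith

end Pool.Agent.H70.G9
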