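import Pool.Agent.H70.G9.Sb
import Pool.Agent.H48.GSW.Tls

/-!
# Theorem (H), MP_c59857_nt, row U2: the linear terms of two sums
-/

set_option autoImplicit false

open Finset Pool.Agent.H6.N4D Pool.Agent.H93 Pool.Agent.H93.GS Pool.Agent.H6.GS2 Pool.Agent.H6.G9
open Pool.Agent.H48.GSW

namespace Pool.Agent.H70.G9

/-- the primes which are not exceptional separate the frequencies -/
lemma sp_of_exc {m q r : ℕ} (hm : 400 ≤ m) (hq : 1 ≤ q) {γ : ℕ → ℝ} (h : ¬ Exc q (2 ^ m) r γ)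
    {i j : ℕ} (hi : i < r) (hj : j < r) : Sp m q (γ i) (γ j) := by
  have hq0 : (q : ℝ) ≠ 0 := by
    have : (0 : ℝ) < q := by exact_mod_cast hq
    exact this.ne'
  have h2m : (0 : ℝ) < 2 ^ m := by positivity
  have h90 : (2 : ℝ) ^ (m / 100) / 2 ^ m ≤ 2 ^ (m / 90) / 2 ^ m := by
    have : (2 : ℝ) ^ (m / 100) ≤ 2 ^ (m / 90) := pow_le_pow_right₀ (by norm_num)
      (Nat.div_le_div_left (by norm_num) (by norm_num))
    gcongr
  unfold Sp
  by_cases h1 : nd (γ i - γ j) ≤ 2 ^ (m / 90) / 2 ^ m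
  · exact Or.inl h1
  · right
    intro t
    push Not at h1
    by_cases ht : (q : ℤ) ∣ t
    · obtain ⟨s, rfl⟩ := ht
      have e1 : γ i - γ j - (((q : ℤ) * s : ℤ) : ℝ) / q = γ i - γ j + ((-s : ℤ) : ℝ) := by
        push_cast
        field_simp
        ring
      rw [e1, nd_add_int]
      exact h90.trans h1.le
    · by_contra h2
      push Not at h2
      apply h
      refine ⟨i, hi, j, hj, t, ht, h2.le.trans ?_⟩
      push_cast
      have e2 : (2 : ℝ) ^ (m / 100) ≤ ((2 : ℝ) ^ m) ^ ((1 : ℝ) / 2) := by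
        rw [← Real.rpow_natCast 2 m, ← Real.rpow_mul (by norm_num), ← Real.rpow_natCast]
        apply Real.rpow_le_rpow_of_exponent_le (by norm_num)
        have e3 : ((m / 100 : ℕ) : ℝ) ≤ (m : ℝ) / 100 := by
          have := @Nat.cast_div_le ℝ _ _ _ m 100
          simpa using this
        have : (0 : ℝ) ≤ m := Nat.cast_nonneg m
        linarith
      have e4 : ((2 : ℝ) ^ m) ^ (-(1 / 2) : ℝ) = ((2 : ℝ) ^ m) ^ ((1 : ℝ) / 2) / 2 ^ m := by
        rw [eq_div_iff h2m.ne']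
        nth_rewrite 2 [← Real.rpow_one ((2 : ℝ) ^ m)]
        rw [← Real.rpow_add h2m]
        norm_num
      rw [e4]
      gcongr

lemma nm_coef {g : Ex} {B : ℝ} (hg : g.nm ≤ B) {i : ℕ} (hi : i < g.k) : ‖g.c i‖ ≤ B := by
  refine le_trans ?_ hg
  unfold Ex.nm
  exact single_le_sum (f := fun i => ‖g.c i‖) (fun _ _ => norm_nonneg _) (mem_range.2 hi)

lemma sb_coef {g h : Ex} {B : ℝ} (hg : g.nm ≤ B) (hh : h.nm ≤ B) {i : ℕ} (hi : i < g.k + h.k) :
    ‖(sb g h).c i‖ ≤ B := by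
  unfold sb
  simp only
  split_ifs with h1
  · exact nm_coef hg h1
  · rw [norm_neg]
    exact nm_coef hh (by omega)

lemma tx_smul (lam : ℕ → ℝ) (q N n : ℕ) (G F : Ex) (t : ℝ) (h : ∀ x, G.f x = (t : ℂ) * F.f x) :
    tx lam q N n G = (t : ℂ) * tx lam q N n F := by
  unfold tx
  rw [← ac_mul]
  apply ac_congr
  intro m _ _
  rw [h, map_mul, Complex.conj_ofReal]
  ring

lemma nd_zero' : nd (0 : ℝ) = 0 := by
  unfold nd
  simp

/-- U2. -/
theorem pf_U2 (hU : T_UBB) (hL : T_LF0) : T_U2 := by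
  intro k B hB
  obtain ⟨m0, hm0⟩ := hL
  obtain ⟨m1, C1, hC1, hU1⟩ := hU (2 * k) (B + 1) (by linarith)
  refine ⟨B + 1, 16 * B * (2 * k) ^ 2 + 1, 2 * k, m0 + m1 + 400, by linarith, by positivity, ?_⟩
  intro η lam m n g h hη hη1 hm hl hgk hhk hgB hhB
  obtain ⟨-, -, hU2, -, -⟩ := hU1 lam m n (by omega) hl
  classical
  obtain ⟨F, hF⟩ : ∃ F, F = sb g h := ⟨_, rfl⟩
  obtain ⟨r, hr⟩ : ∃ r, r = g.k + h.k := ⟨_, rfl⟩
  have hFk : F.k = r := by rw [hF, hr]; rfl
  have hFc : ∀ i < r, ‖F.c i‖ ≤ B := by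
    intro i hi
    rw [hF]
    exact sb_coef hgB hhB (by omega)
  obtain ⟨ε, hε, hε1⟩ : ∃ ε : ℕ → ℝ, (∀ q, ε q * (tx lam q (2 ^ m) n F).re =
      |(tx lam q (2 ^ m) n F).re|) ∧ ∀ q, |ε q| = 1 := by
    refine ⟨fun q => if 0 ≤ (tx lam q (2 ^ m) n F).re then 1 else -1, fun q => ?_, fun q => ?_⟩
    · simp only
      split_ifs with h1
      · rw [abs_of_nonneg h1]; ring
      · rw [abs_of_neg (not_le.1 h1)]; ring
    · simp only
      split_ifs with h1
      · norm_num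
      · norm_num
  obtain ⟨φ, hφ⟩ : ∃ φ : ℕ → ℕ → ℝ, φ = fun j _ => if j < r then F.a j else 0 := ⟨_, rfl⟩
  obtain ⟨u, hu⟩ : ∃ u : ℕ → ℕ → ℂ, u = fun j q => if Exc q (2 ^ m) r F.a ∨ r ≤ j then 0 else
    ((ε q * η : ℝ) : ℂ) * F.c j := ⟨_, rfl⟩
  have hadm : Adm m (2 * k) (B + 1) φ u := by
    constructor
    · intro j _
      apply hm0 m (if j < r then F.a j else 0) (φ j) (by omega)
      intro q _
      rw [hφ]
      simp only [sub_self]
      rw [nd_zero']
      positivity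
    · intro j q
      rw [hu]
      simp only
      split_ifs with h1
      · rw [norm_zero]; linarith
      · push Not at h1
        rw [norm_mul, Complex.norm_real, Real.norm_eq_abs, abs_mul, hε1, one_mul,
          abs_of_pos hη]
        have := hFc j h1.2
        nlinarith [norm_nonneg (F.c j)]
    · intro q hq i hi j hj hi0 hj0
      rw [hu] at hi0 hj0
      simp only at hi0 hj0
      have h1 : ¬ (Exc q (2 ^ m) r F.a ∨ r ≤ i) := by
        intro h1; exact hi0 (if_pos h1)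
      have h2 : ¬ (Exc q (2 ^ m) r F.a ∨ r ≤ j) := by
        intro h1; exact hj0 (if_pos h1)
      push Not at h1 h2
      rw [hφ]
      simp only
      rw [if_pos h1.2, if_pos h2.2]
      exact sp_of_exc (by omega) (ong_q hq).2.1 h1.1 h1.2 h2.2
  have hfv := hU2 φ u hadm
  -- the values
  have hval : ∀ q, ¬ Exc q (2 ^ m) r F.a → ∀ x, (fam (2 * k) φ u q).f x =
      ((ε q * η : ℝ) : ℂ) * F.f x := by
    intro q hq x
    unfold Ex.f fam
    simp only
    rw [hFk, mul_sum]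
    have hrk : r ≤ 2 * k := by omega
    rw [← sum_subset (range_subset_range.2 hrk)]
    · apply sum_congr rfl
      intro j hj
      rw [mem_range] at hj
      rw [hu, hφ]
      simp only
      rw [if_neg (by push Not; exact ⟨hq, hj⟩), if_pos hj]
      ring
    · intro j _ hj
      rw [mem_range, not_lt] at hj
      rw [hu]
      simp only
      rw [if_pos (Or.inr hj), zero_mul]
  have hval0 : ∀ q, Exc q (2 ^ m) r F.a → ∀ x, (fam (2 * k) φ u q).f x = 0 := by
    intro q hq x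
    unfold Ex.f fam
    simp only
    apply sum_eq_zero
    intro j _
    rw [hu]
    simp only
    rw [if_pos (Or.inl hq), zero_mul]
  have hd2 : ar 1 (2 ^ m) n (fun x => ‖F.f x‖ ^ 2) = d2 1 (2 ^ m) n g h := by
    rw [hF]; exact d2_sb _ _ _ _
  have hd0 : 0 ≤ d2 1 (2 ^ m) n g h := ar_nonneg _ _ _ fun m => by positivity
  -- one prime
  have key : ∀ q ∈ EB.QQ m, 1 / (q : ℝ) * |lin lam q (2 ^ m) n g - lin lam q (2 ^ m) n h| ≤
      1 / (q : ℝ) * (η * d2 1 (2 ^ m) n g h) +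
      1 / η * (1 / (q : ℝ) * (2 * (tx lam q (2 ^ m) n (fam (2 * k) φ u q)).re -
        ar 1 (2 ^ m) n (fun x => ‖(fam (2 * k) φ u q).f x‖ ^ 2))) +
      16 * B * (1 / (q : ℝ) * EB.ind (Exc q (2 ^ m) r F.a)) := by
    intro q hq
    obtain ⟨-, hq1, -, -, hqN, -⟩ := ong_q hq
    have hq0 : (0 : ℝ) ≤ 1 / (q : ℝ) := by positivity
    by_cases hx : Exc q (2 ^ m) r F.a
    · have e1 : tx lam q (2 ^ m) n (fam (2 * k) φ u q) = 0 := by
        unfold tx
        rw [ac_congr (G := fun _ => 0)]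
        · unfold ac; simp
        · intro x _ _
          rw [hval0 q hx, map_zero, mul_zero]
      have e2 : ar 1 (2 ^ m) n (fun x => ‖(fam (2 * k) φ u q).f x‖ ^ 2) = 0 := by
        rw [ar_congr (G := fun _ => 0)]
        · unfold ar; simp
        · intro x _ _
          rw [hval0 q hx, norm_zero]; norm_num
      rw [e1, e2, ind_true hx]
      have h4 := lin_le hl (n := n) hq1 hqN g
      have h5 := lin_le hl (n := n) hq1 hqN h
      have h6 : |lin lam q (2 ^ m) n g - lin lam q (2 ^ m) n h| ≤ 16 * B := by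
        have h7 := abs_sub (lin lam q (2 ^ m) n g) (lin lam q (2 ^ m) n h)
        linarith
      have h7 := mul_le_mul_of_nonneg_left h6 hq0
      have h8 : 0 ≤ 1 / (q : ℝ) * (η * d2 1 (2 ^ m) n g h) := by positivity
      simp only [Complex.zero_re, mul_zero, sub_zero, mul_one]
      linarith
    · have e1 := tx_smul lam q (2 ^ m) n (fam (2 * k) φ u q) F (ε q * η) (hval q hx)
      have e2 : ar 1 (2 ^ m) n (fun x => ‖(fam (2 * k) φ u q).f x‖ ^ 2) =
          η ^ 2 * d2 1 (2 ^ m) n g h := by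
        rw [← hd2, ← ar_mul]
        apply ar_congr
        intro x _ _
        rw [hval q hx, norm_mul, Complex.norm_real, Real.norm_eq_abs, abs_mul, hε1, one_mul,
          mul_pow, sq_abs]
      rw [e1, e2, ind_false hx, Complex.re_ofReal_mul]
      have e3 : ε q * η * (tx lam q (2 ^ m) n F).re = η * |(tx lam q (2 ^ m) n F).re| := by
        rw [← hε q]; ring
      rw [e3]
      have e4 : |lin lam q (2 ^ m) n g - lin lam q (2 ^ m) n h| =
          2 * |(tx lam q (2 ^ m) n F).re| := by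
        rw [lin_sb, hF, abs_mul, abs_two]
      rw [e4]
      apply le_of_eq
      field_simp
      ring
  have h1 := sum_le_sum key
  rw [sum_add_distrib, sum_add_distrib, ← mul_sum, ← mul_sum] at h1
  have h2 := exc_sum (m := m) (by omega) r F.a
  have h3 : 1 / η * (∑ q ∈ EB.QQ m, 1 / (q : ℝ) * (2 * (tx lam q (2 ^ m) n
      (fam (2 * k) φ u q)).re - ar 1 (2 ^ m) n (fun x => ‖(fam (2 * k) φ u q).f x‖ ^ 2))) ≤
      1 / η * UB lam (2 * k) (B + 1) m n := by
    apply mul_le_mul_of_nonneg_left _ (by positivity)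
    exact hfv
  have h4 : 16 * B * (∑ q ∈ EB.QQ m, 1 / (q : ℝ) * EB.ind (Exc q (2 ^ m) r F.a)) ≤
      (16 * B * (2 * k) ^ 2 + 1) * (1 / 2) ^ (m / 1000) := by
    have e1 : (r : ℝ) ^ 2 ≤ (2 * k) ^ 2 := by
      have : (r : ℝ) ≤ 2 * k := by
        have : r ≤ 2 * k := by omega
        exact_mod_cast this
      gcongr
    have e2 : (0 : ℝ) ≤ (1 / 2) ^ (m / 1000) := by positivity
    calc 16 * B * (∑ q ∈ EB.QQ m, 1 / (q : ℝ) * EB.ind (Exc q (2 ^ m) r F.a))
        ≤ 16 * B * ((2 * k) ^ 2 * (1 / 2) ^ (m / 1000)) := by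
          apply mul_le_mul_of_nonneg_left _ (by positivity)
          exact h2.trans (mul_le_mul_of_nonneg_right e1 e2)
      _ ≤ _ := by nlinarith
  have h5 : ∑ q ∈ EB.QQ m, 1 / (q : ℝ) * (η * d2 1 (2 ^ m) n g h) =
      η * (∑ q ∈ EB.QQ m, 1 / (q : ℝ)) * d2 1 (2 ^ m) n g h := by
    rw [← sum_mul]; ring
  rw [h5] at h1
  linarith

end Pool.Agent.H70.G9
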